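import Mathlib

namespace Pool.Agent.Results.MP_7c4268_al.Tors

open FreeAbelianGroup

/-- the defining relations surviving on S, inside the free abelian group on S -/
def Rel {G : Type} [AddCommGroup G] (S : Set (Sym2 G)) : Set (FreeAbelianGroup S) :=
  {x | ∃ g h k : G, ∃ (h1 : s(g, h) ∈ S) (h2 : s(g + h, k) ∈ S) (h3 : s(h, k) ∈ S)
    (h4 : s(g, h + k) ∈ S), x = of ⟨_, h3⟩ + of ⟨_, h4⟩ - of ⟨_, h1⟩ - of ⟨_, h2⟩}

def M : ℕ := 3883192491907863254547652202658406796133351661536932693331274890269000952853053855350166088015400969276856047315939131244656614708968244238854055703412369489250138119246347480222186402871613007216750476544588126222186383245880391296195068187561743127434304274973395607666967117883082215832915243860174148186281473131883084783506229626109331839354479516356058995396239890115657973139275151867201523970852112460975798048845794601965247791940377186519879656405648772158127917987954879632175655613165195664664374972509290625834244335782584464011667258148838727130278622298034382962139314734254725360529450536606729213520990906367774644242224058658105335796162649846829696198182052693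76603097289650403131653584786844271118364479590619403836178638532154600690424594689679469920593230340738314916974778303915537254611183653183630188670103662042453943646217129932428627092070061953060224704193671294820897624519642339303860990320662441939928033264551400688866338991601087303047839359565934793995256605898264834391936898041682077676993577411174767948400141207210852733943536426567770863503516795198742593364422683574977718653943267511496771577492271644421216672787824887230779190187397404009084341924450426535130043357274656049960644413518845841540903025761503639657220435973447128745718235403661702538588631957975183591608808721973792355937731909410495322489674993212321550080322229454350565709412826265982422328544723512032221654776771276623318533093099359841402254749428653063283283567659628814493956221990330351019766020588247812131010489668010743842306325728606355374845946798556835850010296051009314733906078732987823097768599580685229769002682645516757266407055763386255612276663583005186912424430403378383378775996097776746396291075576594841306849218364853269553313135607250461650629791130243786647625062916815531233219618007804845484860241854869034526216363826387712851782585366662542397996263899860928763078622237451761884725536687879839699845518521146999126814931586695791326243941303058400490932981760172250604437259314392195083672019215518771208764828555358249474505359579663682165181541575373665960484864296239033514957394247860964109806672324395725225984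

def P : ℕ := 17713948596739948354166993674677969110046626443504909630285440720294043421990735921237398770805287853700773513193388331694900668346567644462311329178766407710662545385252428574629543442243215670892194629269355857519564565934259836399570236504955733949379226796420080582541278907456622824007703111506148636682065075629390750179649002881879091107638926052997397693002628461278216025901185619628615753382454168280129413356336040940755354533056915849112326805572315341894820901330952532991163331111301984436575666269731096858954294230405419575742099430566996002711083889056091936628654371254544461342541546626838084204367410372375811657850639655349141230953740594193753155841731871632515000690697478605801154299729111894029356825647686027853116269378669498175053703365232339299147019167586425923066289275856158365408569221971832885813293544390117449089511860810880999772667758758233304126197849886174816299757671043255835709752243162545678889792299250073240340667155356027354153801287456603625584584206557694541241333794317139000209524442474856578337974435410228380007762520385952483440531314531438800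9573003755212053589996991932178515008633360584613509264006501030124346397053073567736421812344828249731470350629896287647322654928841835224675175421757422634240807186262771660027157334048957911894985979760135143544192987001328581765926828046947410436215981527867444638095524104444299471845770868393288010908614940481317604162298738710095444087364171173271530721311997632529165452115237889736411987252980052232595239186129283533992542448823952562996485081056274387394750843011925774081268518066429399584475992696837025902988447758961662911006464496973062236176661133859329369208120130626069581965079037944772165632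

abbrev G := ZMod 86

def m (g h : G) : Bool := M.testBit (86 * g.val + h.val)
def p (g h : G) : ZMod 2 := if P.testBit (86 * g.val + h.val) then 1 else 0

lemma msy : ∀ g h, m g h = m h g := by decide +kernel
lemma psy : ∀ g h, p g h = p h g := by decide +kernel
lemma cl : ∀ g h, m g h = true → ∀ k, m (g + h) k = true →
    m h k = true ∧ m g (h + k) = true ∧ p h k + p g (h + k) - p g h - p (g + h) k = 0 := by
  decide +kernel

def S : Set (Sym2 G) := {x | Sym2.lift ⟨m, msy⟩ x = true}

lemma mS (g h : G) : s(g, h) ∈ S ↔ m g h = true := Iff.rfl

abbrev Q := FreeAbelianGroup S ⧸ AddSubgroup.closure (Rel S)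

open Classical in
noncomputable def f (x : Sym2 G) : Q :=
  if h : x ∈ S then QuotientAddGroup.mk (of (⟨x, h⟩ : S)) else 0

lemma rel (g h k : G) (a b c d : Sym2 G) (H : a = s(h, k) ∧ b = s(g, h + k) ∧ c = s(g, h) ∧
    d = s(g + h, k) ∧ m g h = true ∧ m (g + h) k = true) : f a + f b - f c - f d = 0 := by
  obtain ⟨rfl, rfl, rfl, rfl, h1, h2⟩ := H
  obtain ⟨h3, h4, -⟩ := cl g h h1 k h2
  rw [← mS] at h1 h2 h3 h4
  simp only [f, dif_pos h1, dif_pos h2, dif_pos h3, dif_pos h4, ← QuotientAddGroup.mk_add,
    ← QuotientAddGroup.mk_sub]
  rw [QuotientAddGroup.eq_zero_iff]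
  exact AddSubgroup.subset_closure ⟨g, h, k, h1, h2, h3, h4, rfl⟩

noncomputable def φ : Q →+ ZMod 2 :=
  QuotientAddGroup.lift _ (FreeAbelianGroup.lift fun x : S => Sym2.lift ⟨p, psy⟩ x.1) (by
    rw [AddSubgroup.closure_le]
    rintro _ ⟨g, h, k, h1, h2, h3, h4, rfl⟩
    simpa using (cl g h h1 k h2).2.2)

lemma φf (g h : G) (H : m g h = true) : φ (f s(g, h)) = p g h := by
  rw [← mS] at H
  simp [f, dif_pos H, φ]

noncomputable def x : Q := f s(12, 40) - f s(12, 54) - f s(22, 30) + f s(22, 54) + f s(30, 36) - f s(36, 40)

lemma two : 2 • x = 0 := by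
  have h0 := rel 61 12 22 s(12, 22) s(34, 61) s(12, 61) s(22, 73) (by decide +kernel)
  have h1 := rel 30 43 22 s(22, 43) s(30, 65) s(30, 43) s(22, 73) (by decide +kernel)
  have h2 := rel 30 22 43 s(22, 43) s(30, 65) s(22, 30) s(43, 52) (by decide +kernel)
  have h3 := rel 40 12 43 s(12, 43) s(40, 55) s(12, 40) s(43, 52) (by decide +kernel)
  have h4 := rel 40 43 12 s(12, 43) s(40, 55) s(40, 43) s(12, 83) (by decide +kernel)
  have h5 := rel 61 22 12 s(12, 22) s(34, 61) s(22, 61) s(12, 83) (by decide +kernel)
  have h6 := rel 61 22 36 s(22, 36) s(58, 61) s(22, 61) s(36, 83) (by decide +kernel)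
  have h7 := rel 40 43 36 s(36, 43) s(40, 79) s(40, 43) s(36, 83) (by decide +kernel)
  have h8 := rel 40 36 43 s(36, 43) s(40, 79) s(36, 40) s(43, 76) (by decide +kernel)
  have h9 := rel 54 22 43 s(22, 43) s(54, 65) s(22, 54) s(43, 76) (by decide +kernel)
  have h10 := rel 54 43 22 s(22, 43) s(54, 65) s(43, 54) s(11, 22) (by decide +kernel)
  have h11 := rel 61 36 22 s(22, 36) s(58, 61) s(36, 61) s(11, 22) (by decide +kernel)
  have h12 := rel 61 36 69 s(36, 69) s(19, 61) s(36, 61) s(11, 69) (by decide +kernel)
  have h13 := rel 54 43 69 s(43, 69) s(26, 54) s(43, 54) s(11, 69) (by decide +kernel)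
  have h14 := rel 54 69 43 s(43, 69) s(26, 54) s(54, 69) s(37, 43) (by decide +kernel)
  have h15 := rel 1 36 43 s(36, 43) s(1, 79) s(1, 36) s(37, 43) (by decide +kernel)
  have h16 := rel 1 43 36 s(36, 43) s(1, 79) s(1, 43) s(36, 44) (by decide +kernel)
  have h17 := rel 61 69 36 s(36, 69) s(19, 61) s(61, 69) s(36, 44) (by decide +kernel)
  have h18 := rel 61 69 2 s(2, 69) s(61, 71) s(61, 69) s(2, 44) (by decide +kernel)
  have h19 := rel 1 43 2 s(2, 43) s(1, 45) s(1, 43) s(2, 44) (by decide +kernel)
  have h20 := rel 1 2 43 s(2, 43) s(1, 45) s(1, 2) s(3, 43) (by decide +kernel)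
  have h21 := rel 20 69 43 s(43, 69) s(20, 26) s(20, 69) s(3, 43) (by decide +kernel)
  have h22 := rel 20 43 69 s(43, 69) s(20, 26) s(20, 43) s(63, 69) (by decide +kernel)
  have h23 := rel 61 2 69 s(2, 69) s(61, 71) s(2, 61) s(63, 69) (by decide +kernel)
  have h24 := rel 61 12 2 s(2, 12) s(14, 61) s(12, 61) s(2, 73) (by decide +kernel)
  have h25 := rel 30 43 2 s(2, 43) s(30, 45) s(30, 43) s(2, 73) (by decide +kernel)
  have h26 := rel 30 2 43 s(2, 43) s(30, 45) s(2, 30) s(32, 43) (by decide +kernel)
  have h27 := rel 20 12 43 s(12, 43) s(20, 55) s(12, 20) s(32, 43) (by decide +kernel)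
  have h28 := rel 20 43 12 s(12, 43) s(20, 55) s(20, 43) s(12, 63) (by decide +kernel)
  have h29 := rel 61 2 12 s(2, 12) s(14, 61) s(2, 61) s(12, 63) (by decide +kernel)
  have h30 := rel 30 22 69 s(22, 69) s(5, 30) s(22, 30) s(52, 69) (by decide +kernel)
  have h31 := rel 40 12 69 s(12, 69) s(40, 81) s(12, 40) s(52, 69) (by decide +kernel)
  have h32 := rel 40 69 12 s(12, 69) s(40, 81) s(40, 69) s(12, 23) (by decide +kernel)
  have h33 := rel 1 22 12 s(12, 22) s(1, 34) s(1, 22) s(12, 23) (by decide +kernel)
  have h34 := rel 1 12 22 s(12, 22) s(1, 34) s(1, 12) s(13, 22) (by decide +kernel)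
  have h35 := rel 30 69 22 s(22, 69) s(5, 30) s(30, 69) s(13, 22) (by decide +kernel)
  have h36 := rel 40 36 2 s(2, 36) s(38, 40) s(36, 40) s(2, 76) (by decide +kernel)
  have h37 := rel 54 22 2 s(2, 22) s(24, 54) s(22, 54) s(2, 76) (by decide +kernel)
  have h38 := rel 54 2 22 s(2, 22) s(24, 54) s(2, 54) s(22, 56) (by decide +kernel)
  have h39 := rel 20 36 22 s(22, 36) s(20, 58) s(20, 36) s(22, 56) (by decide +kernel)
  have h40 := rel 20 22 36 s(22, 36) s(20, 58) s(20, 22) s(36, 42) (by decide +kernel)
  have h41 := rel 40 2 36 s(2, 36) s(38, 40) s(2, 40) s(36, 42) (by decide +kernel)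
  have h42 := rel 30 36 69 s(36, 69) s(19, 30) s(30, 36) s(66, 69) (by decide +kernel)
  have h43 := rel 54 12 69 s(12, 69) s(54, 81) s(12, 54) s(66, 69) (by decide +kernel)
  have h44 := rel 54 69 12 s(12, 69) s(54, 81) s(54, 69) s(12, 37) (by decide +kernel)
  have h45 := rel 1 36 12 s(12, 36) s(1, 48) s(1, 36) s(12, 37) (by decide +kernel)
  have h46 := rel 1 12 36 s(12, 36) s(1, 48) s(1, 12) s(13, 36) (by decide +kernel)
  have h47 := rel 30 69 36 s(36, 69) s(19, 30) s(30, 69) s(13, 36) (by decide +kernel)
  have h48 := rel 40 69 2 s(2, 69) s(40, 71) s(40, 69) s(2, 23) (by decide +kernel)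
  have h49 := rel 1 22 2 s(2, 22) s(1, 24) s(1, 22) s(2, 23) (by decide +kernel)
  have h50 := rel 1 2 22 s(2, 22) s(1, 24) s(1, 2) s(3, 22) (by decide +kernel)
  have h51 := rel 20 69 22 s(22, 69) s(5, 20) s(20, 69) s(3, 22) (by decide +kernel)
  have h52 := rel 20 22 69 s(22, 69) s(5, 20) s(20, 22) s(42, 69) (by decide +kernel)
  have h53 := rel 40 2 69 s(2, 69) s(40, 71) s(2, 40) s(42, 69) (by decide +kernel)
  have h54 := rel 30 36 2 s(2, 36) s(30, 38) s(30, 36) s(2, 66) (by decide +kernel)
  have h55 := rel 54 12 2 s(2, 12) s(14, 54) s(12, 54) s(2, 66) (by decide +kernel)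
  have h56 := rel 54 2 12 s(2, 12) s(14, 54) s(2, 54) s(12, 56) (by decide +kernel)
  have h57 := rel 20 36 12 s(12, 36) s(20, 48) s(20, 36) s(12, 56) (by decide +kernel)
  have h58 := rel 20 12 36 s(12, 36) s(20, 48) s(12, 20) s(32, 36) (by decide +kernel)
  have h59 := rel 30 2 36 s(2, 36) s(30, 38) s(2, 30) s(32, 36) (by decide +kernel)
  unfold x
  linear_combination (norm := abel1)
    h0 - h1 + h2 - h3 + h4 - h5 + h6 - h7 + h8 - h9 + h10 - h11 + h12 - h13 + h14 - h15 + h16 -
    h17 + h18 - h19 + h20 - h21 + h22 - h23 - h24 + h25 - h26 + h27 - h28 + h29 + h30 - h31 +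
    h32 - h33 + h34 - h35 + h36 - h37 + h38 - h39 + h40 - h41 - h42 + h43 - h44 + h45 - h46 +
    h47 - h48 + h49 - h50 + h51 - h52 + h53 - h54 + h55 - h56 + h57 - h58 + h59

lemma ne : x ≠ 0 := by
  intro h
  have := congrArg φ h
  simp only [x, map_add, map_sub, map_zero] at this
  rw [φf, φf, φf, φf, φf, φf] at this
  · revert this; decide +kernel
  all_goals decide +kernel

theorem result : ∃ (G : Type) (_ : AddCommGroup G) (_ : Finite G) (S : Set (Sym2 G)),
    (∀ g h k : G, (s(g, h) ∈ S ∧ s(g + h, k) ∈ S) ↔ (s(h, k) ∈ S ∧ s(g, h + k) ∈ S)) ∧
    (∃ x : FreeAbelianGroup S ⧸ AddSubgroup.closure (Rel S), x ≠ 0 ∧ 2 • x = 0) ∧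
    ¬ Module.Free ℤ (FreeAbelianGroup S ⧸ AddSubgroup.closure (Rel S)) := by
  refine ⟨G, inferInstance, inferInstance, S, fun g h k => ⟨fun ⟨h1, h2⟩ => ?_, fun ⟨h1, h2⟩ => ?_⟩,
    ⟨x, ne, two⟩, fun hf => ne ?_⟩
  · exact ⟨(cl g h h1 k h2).1, (cl g h h1 k h2).2.1⟩
  · rw [mS, msy] at h1 h2
    rw [add_comm] at h2
    have := cl k h h1 g h2
    rw [mS, mS, msy g, msy _ k, add_comm]
    exact ⟨this.1, this.2.1⟩
  · have : (2 : ℤ) • x = 0 := by exact_mod_cast two
    exact (smul_eq_zero.mp this).resolve_left (by norm_num)

end Pool.Agent.Results.MP_7c4268_al.Tors
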